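import Pool.Agent.TropBN.Assemble
import Pool.Agent.TropBN.Surj

/-!
# MP_ee5a6e_co: the local dimension of `W^λ(Γ, w)` can be smaller than `g - |λ|`

There are a metric graph `Γ` of genus `21` and a partition `λ` with `|λ| = 20` such that, for every
marked point `w` of `Γ`, the locus `W^λ(Γ, w)` has a point of local dimension `0`
(an isolated point), whereas `g - |λ| = 1`.

`Γ` is the Moebius ladder on `ZMod 8` with rim edges of length `2` and chords of length `8`, in which
every vertex is replaced by a copy of `K_{2,3}` with legs of length `1`; `λ = (10, 10)`, so that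
`W^λ(Γ, w)` is the Brill-Noether locus `W^1_12(Γ)` (shifted by `12 w`), and the isolated point is the
class of the sum `D₀` of the midpoints of the twelve edges of the Moebius ladder.
The topology of `Pic⁰(Γ)` is carried over from the real torus `ℝ^E / (dℝ^V + H₁(Γ, ℤ))` by the
Abel-Jacobi map, which is bijective (`MetricGraph.aj_injective`, `MetricGraph.aj_surjective`).
-/

namespace Pool.Agent.Results.MP_ee5a6e_co.IsolatedPoint

open Pool.Agent.TropBN

/-- There are a metric graph `Γ` of genus `21` and a partition `λ` with `|λ| = 20` such that for
every marked point `w` the locus `W^λ(Γ, w)` has a point of local dimension `0 < 1 = g - |λ|`. -/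
theorem result : ∃ (Γ : MetricGraph) (lam : YoungDiagram), Γ.genus = 21 ∧ lam.card = 20 ∧
    ∀ w : Γ.Point, ∃ P ∈ Γ.W w lam, HasLocalDim (Γ.W w lam) P 0 :=
  main

end Pool.Agent.Results.MP_ee5a6e_co.IsolatedPoint
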